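import Pool.Agent.helper8.GD.Spec

/-!
# Project GD, module E5: small moduli are good
-/

set_option autoImplicit false

namespace GD

open Finset ArithmeticFunction

theorem E5 : E5_stmt := by
  intro α Z a q d Y r hq hd hco hα hY hZ hr1 hrY
  have hq0 : (0 : ℝ) < q := by exact_mod_cast hq
  set k : ℕ := r * d ^ 2 with hk
  have hk1 : 1 ≤ k := Nat.one_le_iff_ne_zero.2 (by positivity)
  have hkq : 2 * k ≤ q := by
    calc 2 * k = 2 * d ^ 2 * r := by rw [hk]; ring
      _ ≤ 2 * d ^ 2 * Y := Nat.mul_le_mul_left _ hrY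
      _ ≤ q := hY
  have hkq' : (2 : ℝ) * k ≤ q := by exact_mod_cast hkq
  have hke : (r : ℝ) * d ^ 2 = (k : ℝ) := by rw [hk]; push_cast; ring
  rw [hke]
  set N : ℤ := round ((k : ℝ) * α) with hN
  -- `k a - N q ≠ 0`
  have hne : (k : ℤ) * a - N * q ≠ 0 := by
    intro h0
    have h1 : (q : ℤ) ∣ a * (k : ℤ) := ⟨N, by linarith⟩
    have h2 : (q : ℤ) ∣ (k : ℤ) := hco.symm.dvd_of_dvd_mul_left h1
    have h3 : q ∣ k := by exact_mod_cast h2
    have h4 := Nat.le_of_dvd (by omega) h3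
    omega
  have h1 : (1 : ℝ) ≤ |(k : ℝ) * a - N * q| := by
    have : (1 : ℤ) ≤ |(k : ℤ) * a - N * q| := Int.one_le_abs hne
    exact_mod_cast this
  have h2 : |(k : ℝ) * α - k * (a / q)| ≤ 1 / (2 * q) := by
    rw [← mul_sub, abs_mul, abs_of_nonneg (by positivity : (0 : ℝ) ≤ k)]
    calc (k : ℝ) * |α - a / q| ≤ k * (1 / (q : ℝ) ^ 2) :=
          mul_le_mul_of_nonneg_left hα (by positivity)
      _ ≤ 1 / (2 * q) := by
          rw [mul_one_div, div_le_div_iff₀ (by positivity) (by positivity)]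
          nlinarith
  have h3 : 1 / (q : ℝ) ≤ |(k : ℝ) * (a / q) - N| := by
    have e : (k : ℝ) * (a / q) - N = ((k : ℝ) * a - N * q) / q := by
      field_simp
    rw [e, abs_div, abs_of_pos hq0]
    exact div_le_div_of_nonneg_right h1 hq0.le
  have h4 : |(k : ℝ) * (a / q) - N| ≤ |(k : ℝ) * α - N| + |(k : ℝ) * α - k * (a / q)| := by
    have e : (k : ℝ) * (a / q) - N = ((k : ℝ) * α - N) - ((k : ℝ) * α - k * (a / q)) := by ring
    rw [e]
    exact abs_sub _ _
  have h5 : 1 / Z < 1 / (2 * (q : ℝ)) := one_div_lt_one_div_of_lt (by positivity) hZ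
  have h6 : 1 / (q : ℝ) = 1 / (2 * q) + 1 / (2 * q) := by
    field_simp
    norm_num
  linarith

end GD
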