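import Pool.Agent.helper8.GD.Spec

/-!
# Project GD, module F3: the theorem (dyadic decomposition)
-/

set_option autoImplicit false

namespace GD

open Finset ArithmeticFunction

theorem F3_log (A : ℕ) (X : ℝ) (hX : 1 ≤ X) :
    Real.log X ^ A ≤ (2 * (A : ℝ) + 2) ^ A * Real.sqrt X := by
  have hA : (0 : ℝ) < 2 * (A : ℝ) + 2 := by positivity
  have h0 : 0 ≤ Real.log X := Real.log_nonneg hX
  have h1 := Real.log_le_rpow_div (x := X) (ε := 1 / (2 * (A : ℝ) + 2)) (by linarith) (by positivity)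
  calc Real.log X ^ A ≤ (X ^ (1 / (2 * (A : ℝ) + 2)) / (1 / (2 * (A : ℝ) + 2))) ^ A :=
        pow_le_pow_left₀ h0 h1 A
    _ = (2 * (A : ℝ) + 2) ^ A * X ^ (1 / (2 * (A : ℝ) + 2) * A) := by
        rw [div_div_eq_mul_div, div_one, mul_pow, mul_comm, Real.rpow_mul (by linarith),
          Real.rpow_natCast]
    _ ≤ (2 * (A : ℝ) + 2) ^ A * X ^ ((1 : ℝ) / 2) := by
        refine mul_le_mul_of_nonneg_left ?_ (by positivity)
        refine Real.rpow_le_rpow_of_exponent_le hX ?_
        rw [div_mul_eq_mul_div, one_mul, div_le_div_iff₀ hA (by norm_num)]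
        linarith
    _ = (2 * (A : ℝ) + 2) ^ A * Real.sqrt X := by rw [Real.sqrt_eq_rpow]

theorem F3 (hF1 : F1_stmt) (hF2 : F2_stmt) : F3_stmt := by
  classical
  obtain ⟨c₁, δ, hc₁, hδ, hδ5, h1⟩ := hF1
  obtain ⟨c, hc, h2⟩ := hF2 c₁ δ hc₁ hδ hδ5
  refine ⟨c, δ, hc, hδ, fun A => ?_⟩
  obtain ⟨C, X₀, hC, h1⟩ := h1 A
  obtain ⟨X₁, h2⟩ := h2 C hC
  set Y : ℕ := max X₀ X₁ with hY
  set K₁ : ℝ := (2 * (A : ℝ) + 2) ^ A with hK₁
  have hK₁0 : 0 ≤ K₁ := by positivity
  refine ⟨2 ^ A * 2 + 2 * K₁ + 2 * K₁ * Y, fun X hX => ?_⟩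
  have hX1 : 1 ≤ X := by linarith
  have hX0 : 0 < X := by linarith
  have hs0 : 0 < Real.sqrt X := Real.sqrt_pos.2 hX0
  have hss : Real.sqrt X * Real.sqrt X = X := Real.mul_self_sqrt hX0.le
  have hs1 : 1 ≤ Real.sqrt X := Real.one_le_sqrt.2 hX1
  have hlog : 0 < Real.log X := Real.log_pos (by linarith)
  have hlA : 0 < Real.log X ^ A := pow_pos hlog A
  have hlog1 := F3_log A X hX1
  rw [← hK₁] at hlog1
  set B : Set ℕ := {N : ℕ | Even N ∧ (N : ℝ) ≤ X ∧
    ((Reps ((N : ℝ) ^ δ) N).ncard : ℝ) < c * N / Real.log N ^ 4} with hB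
  -- the square root is small
  have hsq : 2 * Real.sqrt X ≤ 2 * K₁ * X / Real.log X ^ A := by
    rw [le_div_iff₀ hlA]
    nlinarith [mul_le_mul_of_nonneg_left hlog1 hs0.le]
  by_cases hYX : (Y : ℝ) ≤ Real.sqrt X
  · -- large X
    let Z : ℕ → ℕ := fun j => ⌊X / 2 ^ j⌋₊
    let T : ℕ → Finset ℕ := fun j => if Real.sqrt X ≤ (Z j : ℝ) then
      (Icc 1 (Z j)).filter (fun N => Even N ∧ Z j ≤ 2 * N ∧
        WW (Z j) C δ N < c₁ * (Z j : ℕ) / Real.log (wX (Z j) C) ^ 2 * G1 (Z j) C * G2 (Z j) C)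
      else ∅
    have hsub : B ⊆ ((Finset.range ⌈Real.sqrt X⌉₊ ∪
        (Finset.range (⌊X⌋₊ + 1)).biUnion T : Finset ℕ) : Set ℕ) := by
      rintro N ⟨hNe, hNX, hNr⟩
      rw [Finset.mem_coe, Finset.mem_union, Finset.mem_range, Finset.mem_biUnion]
      by_cases hNs : (N : ℝ) < Real.sqrt X
      · left
        exact Nat.lt_ceil.2 hNs
      · right
        push Not at hNs
        have hN0 : (0 : ℝ) < N := hs0.trans_le hNs
        have hN0' : 0 < N := by exact_mod_cast hN0
        have hXN : 1 ≤ X / N := by rw [le_div_iff₀ hN0]; linarith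
        have hfl : ⌊X / N⌋₊ ≠ 0 := (Nat.floor_pos.2 hXN).ne'
        have hj1 : (2 : ℝ) ^ Nat.log 2 ⌊X / N⌋₊ ≤ X / N := by
          have h3 := Nat.pow_log_le_self 2 hfl
          have h4 : ((2 ^ Nat.log 2 ⌊X / N⌋₊ : ℕ) : ℝ) ≤ (⌊X / N⌋₊ : ℝ) := by exact_mod_cast h3
          push_cast at h4
          exact h4.trans (Nat.floor_le (by linarith))
        have hj2 : X / N < 2 ^ Nat.log 2 ⌊X / N⌋₊ * 2 := by
          have h3 := Nat.lt_pow_succ_log_self (b := 2) (by norm_num) ⌊X / N⌋₊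
          have h4 := (Nat.floor_lt (by linarith)).1 h3
          push_cast at h4
          rw [Nat.succ_eq_add_one, pow_succ] at h4
          exact h4
        set j := Nat.log 2 ⌊X / N⌋₊ with hj
        have hp : (0 : ℝ) < 2 ^ j := by positivity
        have hNZ : (N : ℝ) ≤ X / 2 ^ j := by
          rw [le_div_iff₀ hp]
          rw [le_div_iff₀ hN0] at hj1
          linarith
        have hZN : X / 2 ^ j ≤ 2 * N := by
          rw [div_le_iff₀ hp]
          rw [div_lt_iff₀ hN0] at hj2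
          nlinarith
        have hNZ' : N ≤ Z j := Nat.le_floor hNZ
        have hZN' : Z j ≤ 2 * N := by
          have : (Z j : ℝ) ≤ 2 * N := (Nat.floor_le (by positivity)).trans hZN
          exact_mod_cast this
        have hsZ : Real.sqrt X ≤ (Z j : ℝ) := hNs.trans (by exact_mod_cast hNZ')
        have hYZ : Y ≤ Z j := by exact_mod_cast hYX.trans hsZ
        refine ⟨j, ?_, ?_⟩
        · rw [Finset.mem_range, Nat.lt_succ_iff]
          refine Nat.le_floor ?_
          have h5 : (j : ℝ) < 2 ^ j := by exact_mod_cast Nat.lt_two_pow_self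
          have h6 : X / N ≤ X := div_le_self hX0.le (by exact_mod_cast hN0')
          linarith
        · simp only [T, if_pos hsZ]
          rw [Finset.mem_filter, Finset.mem_Icc]
          refine ⟨⟨hN0', hNZ'⟩, hNe, hZN', ?_⟩
          by_contra hcon
          push Not at hcon
          exact absurd (h2 (Z j) ((le_max_right _ _).trans hYZ) N hNZ' hZN' hcon) (not_le.2 hNr)
    have hT : ∀ j, ((T j).card : ℝ) ≤ (X * 2 ^ A / Real.log X ^ A) * (1 / 2 : ℝ) ^ j := by
      intro j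
      by_cases hsZ : Real.sqrt X ≤ (Z j : ℝ)
      · have hYZ : Y ≤ Z j := by exact_mod_cast hYX.trans hsZ
        simp only [T, if_pos hsZ]
        refine (h1 (Z j) ((le_max_left _ _).trans hYZ)).trans ?_
        have hl : Real.log X / 2 ≤ Real.log (Z j) := by
          rw [← Real.log_sqrt hX0.le]
          exact Real.log_le_log hs0 hsZ
        have hl0 : 0 < Real.log X / 2 := by positivity
        have hZX : (Z j : ℝ) ≤ X / 2 ^ j := Nat.floor_le (by positivity)
        calc (Z j : ℝ) / Real.log (Z j) ^ A ≤ (X / 2 ^ j) / (Real.log X / 2) ^ A :=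
              div_le_div₀ (by positivity) hZX (pow_pos hl0 A) (pow_le_pow_left₀ hl0.le hl A)
          _ = (X * 2 ^ A / Real.log X ^ A) * (1 / 2 : ℝ) ^ j := by
              rw [div_pow, div_pow, one_pow]
              field_simp
      · simp only [T, if_neg hsZ, Finset.card_empty, Nat.cast_zero]
        positivity
    have hcard : (B.ncard : ℝ) ≤ (⌈Real.sqrt X⌉₊ : ℝ) +
        ∑ j ∈ Finset.range (⌊X⌋₊ + 1), ((T j).card : ℝ) := by
      have h3 : B.ncard ≤ (Finset.range ⌈Real.sqrt X⌉₊ ∪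
          (Finset.range (⌊X⌋₊ + 1)).biUnion T : Finset ℕ).card := by
        rw [← Set.ncard_coe_finset]
        exact Set.ncard_le_ncard hsub (Finset.finite_toSet _)
      have h4 := h3.trans ((Finset.card_union_le _ _).trans
        (Nat.add_le_add (Finset.card_range _).le (Finset.card_biUnion_le)))
      exact_mod_cast h4
    have hsum : ∑ j ∈ Finset.range (⌊X⌋₊ + 1), ((T j).card : ℝ) ≤
        (X * 2 ^ A / Real.log X ^ A) * 2 := by
      refine (Finset.sum_le_sum fun j _ => hT j).trans ?_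
      rw [← Finset.mul_sum]
      exact mul_le_mul_of_nonneg_left (sum_geometric_two_le _) (by positivity)
    have hceil : (⌈Real.sqrt X⌉₊ : ℝ) ≤ 2 * Real.sqrt X := by
      have := (Nat.ceil_lt_add_one hs0.le).le
      linarith
    calc (B.ncard : ℝ) ≤ 2 * K₁ * X / Real.log X ^ A + (X * 2 ^ A / Real.log X ^ A) * 2 := by
          linarith
      _ = (2 ^ A * 2 + 2 * K₁) * X / Real.log X ^ A := by ring
      _ ≤ (2 ^ A * 2 + 2 * K₁ + 2 * K₁ * Y) * X / Real.log X ^ A := by
          refine div_le_div_of_nonneg_right ?_ hlA.le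
          refine mul_le_mul_of_nonneg_right ?_ hX0.le
          have : 0 ≤ 2 * K₁ * (Y : ℝ) := by positivity
          linarith
  · -- small X
    push Not at hYX
    have hcard : (B.ncard : ℝ) ≤ 2 * X := by
      have hsub : B ⊆ ((Finset.range (⌊X⌋₊ + 1) : Finset ℕ) : Set ℕ) := by
        rintro N ⟨-, hNX, -⟩
        rw [Finset.mem_coe, Finset.mem_range, Nat.lt_succ_iff]
        exact Nat.le_floor hNX
      have h3 : B.ncard ≤ ⌊X⌋₊ + 1 := by
        have := Set.ncard_le_ncard hsub (Finset.finite_toSet _)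
        rwa [Set.ncard_coe_finset, Finset.card_range] at this
      have h4 : (B.ncard : ℝ) ≤ (⌊X⌋₊ : ℝ) + 1 := by exact_mod_cast h3
      have := Nat.floor_le hX0.le
      linarith
    refine hcard.trans ?_
    rw [le_div_iff₀ hlA]
    have h5 : Real.log X ^ A ≤ K₁ * Y := hlog1.trans (mul_le_mul_of_nonneg_left hYX.le hK₁0)
    calc 2 * X * Real.log X ^ A ≤ 2 * X * (K₁ * Y) := mul_le_mul_of_nonneg_left h5 (by positivity)
      _ = (2 * K₁ * Y) * X := by ring
      _ ≤ (2 ^ A * 2 + 2 * K₁ + 2 * K₁ * Y) * X := by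
          refine mul_le_mul_of_nonneg_right ?_ hX0.le
          have : (0 : ℝ) ≤ 2 ^ A * 2 + 2 * K₁ := by positivity
          linarith

end GD
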